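import Mathlib

/-! # Adjoining a cube root of unity -/

set_option autoImplicit false

namespace Pool.Agent.K1H2.RF

open Polynomial IntermediateField

/-- a field of degree at least `3` without proper subfields contains no primitive cube root of unity -/
theorem no_omega {L : Type} [Field L] [NumberField L] (h3 : 3 ≤ Module.finrank ℚ L)
    (hns : ∀ E : IntermediateField ℚ L, E = ⊥ ∨ E = ⊤) (z : L) : z ^ 2 + z + 1 ≠ 0 := by
  intro hz
  rcases hns ℚ⟮z⟯ with h | h
  · have h2 : z ∈ ℚ⟮z⟯ := mem_adjoin_simple_self ℚ z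
    rw [h, mem_bot] at h2
    obtain ⟨q, hq⟩ := h2
    have h4 : q ^ 2 + q + 1 = 0 := by
      have h5 : algebraMap ℚ L (q ^ 2 + q + 1) = 0 := by
        rw [map_add, map_add, map_pow, map_one, hq, hz]
      exact (map_eq_zero _).1 h5
    nlinarith [sq_nonneg (q + 1), sq_nonneg q]
  · have h1 : Module.finrank ℚ ℚ⟮z⟯ = (minpoly ℚ z).natDegree :=
      IntermediateField.adjoin.finrank (Algebra.IsIntegral.isIntegral z)
    rw [h, IntermediateField.finrank_top'] at h1
    have h2 : minpoly ℚ z ∣ (X ^ 2 + X + 1 : ℚ[X]) := by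
      apply minpoly.dvd
      simp [hz]
    have hm : (X ^ 2 + X + 1 : ℚ[X]).natDegree = 2 := by compute_degree!
    have h4 := Polynomial.natDegree_le_of_dvd h2 (by
      intro h0
      rw [h0] at hm
      simp at hm)
    omega

/-- the field `L(√-3)` -/
theorem exists_quad (L : Type) [Field L] [NumberField L] (hz : ∀ z : L, z ^ 2 + z + 1 ≠ 0) :
    ∃ (K : Type) (_ : Field K) (_ : NumberField K) (_ : Algebra L K), Module.finrank L K = 2 ∧
      ∃ ω : K, ω ^ 2 + ω + 1 = 0 := by
  obtain ⟨f, hf⟩ : ∃ f : L[X], f = X ^ 2 + X + 1 := ⟨_, rfl⟩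
  have hd : f.natDegree = 2 := by rw [hf]; compute_degree!
  have hf0 : f ≠ 0 := by
    intro h
    rw [h] at hd
    simp at hd
  have hirr : Irreducible f := by
    apply Polynomial.irreducible_of_degree_le_three_of_not_isRoot
    · rw [hd]; simp
    · intro x hx
      rw [IsRoot, hf] at hx
      simp at hx
      exact hz x hx
  have hfact : Fact (Irreducible f) := ⟨hirr⟩
  have hfin : Module.Finite L (AdjoinRoot f) := (AdjoinRoot.powerBasis hf0).finite
  refine ⟨AdjoinRoot f, inferInstance, NumberField.of_module_finite L (AdjoinRoot f), inferInstance, ?_, AdjoinRoot.root f, ?_⟩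
  · rw [(AdjoinRoot.powerBasis hf0).finrank, AdjoinRoot.powerBasis_dim hf0, hd]
  · have h1 : (X ^ 2 + X + 1 : L[X]).eval₂ (AdjoinRoot.of f) (AdjoinRoot.root f) = 0 := by
      rw [← hf]
      exact AdjoinRoot.eval₂_root f
    simpa using h1

end Pool.Agent.K1H2.RF
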