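import Mathlib

/-! # Comparison of growth -/

set_option autoImplicit false

namespace Pool.Agent.K1H2.RF

open Filter Finset

/-- many primes remain after dropping the divisors of the discriminant -/
theorem many {δ θ μ : ℝ} (hδ : 0 < δ) (hθ : 0 < θ) (hμ : 0 < μ) (hμ1 : μ < 1) (X0 : ℕ) :
    ∀ᶠ x : ℝ in atTop, X0 ≤ ⌊x ^ θ⌋₊ ∧
      2 * (x ^ θ) ^ (1 - μ) + Real.log x / Real.log 2 ≤ δ * (⌊x ^ θ⌋₊ : ℝ) / Real.log (⌊x ^ θ⌋₊ : ℝ) := by
  have hl2 : 0 < Real.log 2 := Real.log_pos (by norm_num)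
  have e1 : ∀ᶠ Y : ℝ in atTop, Real.log Y ≤ δ / 8 * Y ^ μ := by
    filter_upwards [(isLittleO_log_rpow_atTop hμ).bound (show 0 < δ / 8 by positivity),
      eventually_ge_atTop (1 : ℝ)] with Y hY hY1
    rw [Real.norm_eq_abs, Real.norm_eq_abs, abs_of_nonneg (Real.log_nonneg hY1),
      abs_of_nonneg (by positivity)] at hY
    exact hY
  have e2 : ∀ᶠ Y : ℝ in atTop, Real.log Y ≤ 2 * θ * Real.log 2 * Y ^ (1 - μ) := by
    filter_upwards [(isLittleO_log_rpow_atTop (show 0 < 1 - μ by linarith)).bound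
      (show 0 < 2 * θ * Real.log 2 by positivity), eventually_ge_atTop (1 : ℝ)] with Y hY hY1
    rw [Real.norm_eq_abs, Real.norm_eq_abs, abs_of_nonneg (Real.log_nonneg hY1),
      abs_of_nonneg (by positivity)] at hY
    exact hY
  have e3 : ∀ᶠ Y : ℝ in atTop, max 4 ((X0 : ℝ) + 1) ≤ Y := eventually_ge_atTop _
  have e4 := (tendsto_rpow_atTop hθ).eventually (e1.and (e2.and e3))
  filter_upwards [e4, eventually_gt_atTop (1 : ℝ)] with x hx hx1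
  obtain ⟨h1, h2, h3⟩ := hx
  have hx0 : 0 < x := by linarith
  obtain ⟨Y, hY⟩ : ∃ Y : ℝ, Y = x ^ θ := ⟨_, rfl⟩
  have hlY : Real.log Y = θ * Real.log x := by rw [hY, Real.log_rpow hx0]
  rw [← hY] at h1 h2 h3 ⊢
  have hY4 : 4 ≤ Y := (le_max_left _ _).trans h3
  have hYX : (X0 : ℝ) + 1 ≤ Y := (le_max_right _ _).trans h3
  have hY0 : 0 < Y := by linarith
  have hfl : Y < (⌊Y⌋₊ : ℝ) + 1 := Nat.lt_floor_add_one _
  have hfl2 : (⌊Y⌋₊ : ℝ) ≤ Y := Nat.floor_le hY0.le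
  have hfl3 : Y / 2 ≤ (⌊Y⌋₊ : ℝ) := by linarith
  have hfl4 : (3 : ℝ) ≤ (⌊Y⌋₊ : ℝ) := by linarith
  refine ⟨?_, ?_⟩
  · have : (X0 : ℝ) < (⌊Y⌋₊ : ℝ) + 1 := by linarith
    have h4 : X0 < ⌊Y⌋₊ + 1 := by exact_mod_cast this
    omega
  · have hl0 : 0 < Real.log (⌊Y⌋₊ : ℝ) := Real.log_pos (by linarith)
    have hl1 : Real.log (⌊Y⌋₊ : ℝ) ≤ Real.log Y := Real.log_le_log (by linarith) hfl2
    have h5 : 4 * Y ^ (1 - μ) ≤ δ * (⌊Y⌋₊ : ℝ) / Real.log (⌊Y⌋₊ : ℝ) := by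
      rw [le_div_iff₀ hl0]
      have h6 : Y ^ (1 - μ) * Y ^ μ = Y := by
        rw [← Real.rpow_add hY0]
        have : 1 - μ + μ = 1 := by ring
        rw [this, Real.rpow_one]
      calc 4 * Y ^ (1 - μ) * Real.log (⌊Y⌋₊ : ℝ) ≤ 4 * Y ^ (1 - μ) * (δ / 8 * Y ^ μ) := by
            apply mul_le_mul_of_nonneg_left (hl1.trans h1) (by positivity)
        _ = δ * ((Y ^ (1 - μ) * Y ^ μ) / 2) := by ring
        _ = δ * (Y / 2) := by rw [h6]
        _ ≤ δ * (⌊Y⌋₊ : ℝ) := mul_le_mul_of_nonneg_left hfl3 hδ.le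
    have h7 : Real.log x / Real.log 2 ≤ 2 * Y ^ (1 - μ) := by
      rw [div_le_iff₀ hl2]
      have h8 : θ * Real.log x ≤ θ * (2 * Y ^ (1 - μ) * Real.log 2) := by
        rw [← hlY]
        calc Real.log Y ≤ 2 * θ * Real.log 2 * Y ^ (1 - μ) := h2
          _ = _ := by ring
      exact le_of_mul_le_mul_left h8 hθ
    linarith

/-- few prime divisors -/
theorem few {D : ℕ} (hD : D ≠ 0) : (D.primeFactors.card : ℝ) ≤ Real.log D / Real.log 2 := by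
  have hl2 : 0 < Real.log 2 := Real.log_pos (by norm_num)
  rw [le_div_iff₀ hl2]
  have h1 : 2 ^ D.primeFactors.card ≤ D := by
    calc 2 ^ D.primeFactors.card ≤ ∏ p ∈ D.primeFactors, p :=
          Finset.pow_card_le_prod _ _ _ fun p hp => (Nat.prime_of_mem_primeFactors hp).two_le
      _ ≤ D := Nat.le_of_dvd (Nat.pos_of_ne_zero hD) (Nat.prod_primeFactors_dvd D)
  have h2 : ((2 : ℝ) ^ D.primeFactors.card) ≤ D := by exact_mod_cast h1
  have h3 := Real.log_le_log (by positivity) h2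
  rwa [Real.log_pow] at h3

/-- splitting a set of primes -/
theorem split (A : Finset ℕ) (hA : ∀ p ∈ A, p.Prime) {D : ℕ} (hD : D ≠ 0) (I : ℕ → Prop) {z : ℝ}
    (hz : 2 * z + Real.log D / Real.log 2 ≤ (A.card : ℝ)) :
    (∃ M : Finset ℕ, M ⊆ A ∧ (∀ p ∈ M, I p) ∧ z ≤ (M.card : ℝ)) ∨
    (∃ M : Finset ℕ, M ⊆ A ∧ (∀ p ∈ M, ¬ p ∣ D ∧ ¬ I p) ∧ z ≤ (M.card : ℝ)) := by
  classical
  have h1 : A ⊆ A.filter (fun p => I p) ∪ (A.filter (fun p => ¬ p ∣ D ∧ ¬ I p) ∪ D.primeFactors) := by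
    intro p hp
    by_cases h2 : I p
    · exact mem_union_left _ (mem_filter.2 ⟨hp, h2⟩)
    · apply mem_union_right
      by_cases h3 : p ∣ D
      · exact mem_union_right _ (Nat.mem_primeFactors.2 ⟨hA p hp, h3, hD⟩)
      · exact mem_union_left _ (mem_filter.2 ⟨hp, h3, h2⟩)
  have h2 : A.card ≤ (A.filter (fun p => I p)).card +
      ((A.filter (fun p => ¬ p ∣ D ∧ ¬ I p)).card + D.primeFactors.card) :=
    (card_le_card h1).trans ((card_union_le _ _).trans (Nat.add_le_add_left (card_union_le _ _) _))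
  have h3 : (A.card : ℝ) ≤ ((A.filter (fun p => I p)).card : ℝ) +
      (((A.filter (fun p => ¬ p ∣ D ∧ ¬ I p)).card : ℝ) + (D.primeFactors.card : ℝ)) := by exact_mod_cast h2
  have h4 := few hD
  by_cases h5 : z ≤ ((A.filter (fun p => I p)).card : ℝ)
  · exact Or.inl ⟨_, filter_subset _ _, fun p hp => (mem_filter.1 hp).2, h5⟩
  · exact Or.inr ⟨A.filter (fun p => ¬ p ∣ D ∧ ¬ I p), filter_subset _ _, fun p hp => (mem_filter.1 hp).2,
      by linarith⟩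

/-- the exponent of the final bound -/
theorem expo {w κ ε : ℝ} (hw : 1 ≤ w) (hκ : 0 < κ) (hκε : 3 * κ ≤ ε) :
    1 / 2 + κ - (1 - κ) * (1 - κ) / w ≤ 1 / 2 - 1 / w + ε := by
  have h0 : 0 < w := by linarith
  have h1 : (1 - κ) * (1 - κ) / w = 1 / w - (2 * κ - κ ^ 2) / w := by
    field_simp
    ring
  have h2 : (2 * κ - κ ^ 2) / w ≤ 2 * κ := by
    rw [div_le_iff₀ h0]
    nlinarith [sq_nonneg κ, mul_nonneg hκ.le (show (0:ℝ) ≤ w - 1 by linarith)]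
  rw [h1]
  linarith

/-- the bound from many inert primes -/
theorem fin_inert {T TK m D DK C2 κ θ c27 c3 : ℝ} (hT : 0 ≤ T) (hD : 1 ≤ D) (hDK : 0 ≤ DK)
    (hC2 : 0 < C2) (hκ : 0 < κ) (h27 : 0 < c27) (h3 : 0 < c3) (hm : (D ^ θ) ^ (1 - κ) ≤ m)
    (h1 : m * TK ≤ C2 * DK ^ (1 / 2 + κ)) (h2 : DK ≤ c3 * D ^ 2) (hr : T ^ 2 ≤ c27 * TK) :
    T ≤ √(c27 * (C2 * c3 ^ (1 / 2 + κ))) * D ^ (1 / 2 + κ - θ * (1 - κ) / 2) := by
  have hD0 : 0 < D := by linarith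
  obtain ⟨A, hA⟩ : ∃ A : ℝ, A = c27 * (C2 * c3 ^ (1 / 2 + κ)) := ⟨_, rfl⟩
  have hA0 : 0 ≤ A := by rw [hA]; positivity
  rw [← hA]
  have e1 : (D ^ θ) ^ (1 - κ) = D ^ (θ * (1 - κ)) := by rw [← Real.rpow_mul hD0.le]
  rw [e1] at hm
  have h4 : DK ^ (1 / 2 + κ) ≤ c3 ^ (1 / 2 + κ) * D ^ (1 + 2 * κ) := by
    calc DK ^ (1 / 2 + κ) ≤ (c3 * D ^ 2) ^ (1 / 2 + κ) := Real.rpow_le_rpow hDK h2 (by linarith)
      _ = c3 ^ (1 / 2 + κ) * D ^ (1 + 2 * κ) := by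
        rw [Real.mul_rpow h3.le (by positivity), ← Real.rpow_natCast, ← Real.rpow_mul hD0.le]
        congr 2
        push_cast
        ring
  have h5 : D ^ (θ * (1 - κ)) * T ^ 2 ≤ A * D ^ (1 + 2 * κ) := by
    calc D ^ (θ * (1 - κ)) * T ^ 2 ≤ m * (c27 * TK) := by
          apply mul_le_mul hm hr (by positivity)
          exact le_trans (by positivity) hm
      _ = c27 * (m * TK) := by ring
      _ ≤ c27 * (C2 * (c3 ^ (1 / 2 + κ) * D ^ (1 + 2 * κ))) := by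
          apply mul_le_mul_of_nonneg_left _ h27.le
          exact h1.trans (mul_le_mul_of_nonneg_left h4 hC2.le)
      _ = A * D ^ (1 + 2 * κ) := by rw [hA]; ring
  have h6 : D ^ (1 + 2 * κ) = D ^ (θ * (1 - κ)) * (D ^ (1 / 2 + κ - θ * (1 - κ) / 2)) ^ 2 := by
    rw [← Real.rpow_natCast (D ^ (1 / 2 + κ - θ * (1 - κ) / 2)) 2, ← Real.rpow_mul hD0.le,
      ← Real.rpow_add hD0]
    congr 1
    push_cast
    ring
  have h7 : T ^ 2 ≤ (√A * D ^ (1 / 2 + κ - θ * (1 - κ) / 2)) ^ 2 := by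
    rw [mul_pow, Real.sq_sqrt hA0]
    have h8 : D ^ (θ * (1 - κ)) * T ^ 2 ≤
        D ^ (θ * (1 - κ)) * (A * (D ^ (1 / 2 + κ - θ * (1 - κ) / 2)) ^ 2) := by
      rw [h6] at h5
      calc _ ≤ _ := h5
        _ = _ := by ring
    exact le_of_mul_le_mul_left h8 (by positivity)
  exact (pow_le_pow_iff_left₀ hT (by positivity) two_ne_zero).1 h7

/-- the bound from many primes -/
theorem fin_split {T m D C1 κ θ : ℝ} (hT : 0 ≤ T) (hD : 1 ≤ D)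
    (hm : (D ^ θ) ^ (1 - κ) ≤ m) (h1 : m * T ≤ C1 * D ^ (1 / 2 + κ)) :
    T ≤ C1 * D ^ (1 / 2 + κ - θ * (1 - κ)) := by
  have hD0 : 0 < D := by linarith
  have e1 : (D ^ θ) ^ (1 - κ) = D ^ (θ * (1 - κ)) := by rw [← Real.rpow_mul hD0.le]
  rw [e1] at hm
  have h2 : D ^ (θ * (1 - κ)) * T ≤ D ^ (θ * (1 - κ)) * (C1 * D ^ (1 / 2 + κ - θ * (1 - κ))) := by
    calc D ^ (θ * (1 - κ)) * T ≤ m * T := mul_le_mul_of_nonneg_right hm hT
      _ ≤ C1 * D ^ (1 / 2 + κ) := h1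
      _ = C1 * (D ^ (θ * (1 - κ)) * D ^ (1 / 2 + κ - θ * (1 - κ))) := by
        rw [← Real.rpow_add hD0]
        congr 2
        ring
      _ = _ := by ring
  exact le_of_mul_le_mul_left h2 (by positivity)

end Pool.Agent.K1H2.RF
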