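import Pool.Agent.K1H79.QR.Sep

/-! # Primes which do not remain prime -/

set_option autoImplicit false

namespace Pool.Agent.K1H2.RF

open NumberField Ideal Pool.Agent.K1H79.QR

theorem not_le_sq {L : Type} [Field L] [NumberField L] {p : ℕ} (hp : p.Prime)
    (hpD : ¬ (p : ℤ) ∣ discr L) (P : Ideal (𝓞 L)) [P.IsPrime] (hP : ((p : ℕ) : 𝓞 L) ∈ P) :
    ¬ Ideal.span {((p : ℕ) : 𝓞 L)} ≤ P ^ 2 := by
  have hpz : Prime (p : ℤ) := Nat.prime_iff_prime_int.1 hp
  have hu : Algebra.IsUnramifiedAt ℤ P :=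
    (not_dvd_discr_iff_forall_mem L (𝓞 L) hpz).1 hpD P inferInstance (by exact_mod_cast hP)
  have hPb : P ≠ ⊥ := prime_ne_bot hp hP
  have hlo : P.LiesOver (Ideal.span {(p : ℤ)}) :=
    (Ideal.liesOver_span_iff (Ideal.IsPrime.ne_top inferInstance) hpz).mpr (by exact_mod_cast hP)
  have hmx : (Ideal.span {(p : ℤ)}).IsPrime := by
    rw [Ideal.span_singleton_prime hpz.ne_zero]
    exact hpz
  let := Localization.AtPrime.algebraOfLiesOver (Ideal.span {(p : ℤ)}) P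
  have h1 := ((Algebra.isUnramifiedAt_iff_map_eq ℤ (Ideal.span {(p : ℤ)}) P).1 hu).2
  have hmap : (Ideal.span {(p : ℤ)}).map (algebraMap ℤ (𝓞 L)) = Ideal.span {((p : ℕ) : 𝓞 L)} := by
    rw [Ideal.map_span, Set.image_singleton]
    simp
  have hle : (Ideal.span {(p : ℤ)}).map (algebraMap ℤ (𝓞 L)) ≤ P := by
    rw [hmap, Ideal.span_singleton_le_iff_mem]
    exact hP
  have h2 := Ideal.ramificationIdx'_eq_one_of_map_localization hle hPb P.primeCompl_le_nonZeroDivisors h1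
  rw [← hmap, ← Ideal.ramificationIdx'_ne_one_iff hle, not_ne_iff]
  exact h2

/-- an unramified prime number which does not remain prime has two different prime ideals above it, one
of them of small norm -/
theorem two_of_not_prime {L : Type} [Field L] [NumberField L] {n : ℕ} (hn : Module.finrank ℚ L = n) {p : ℕ}
    (hp : p.Prime) (hpD : ¬ (p : ℤ) ∣ discr L) (hnp : ¬ (Ideal.span {((p : ℕ) : 𝓞 L)}).IsPrime) :
    ∃ 𝔭 𝔭' : Ideal (𝓞 L), Pr p 𝔭 𝔭' ∧ absNorm 𝔭 ≤ p ^ (n / 2) := by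
  obtain ⟨𝔭, 𝔭', h1⟩ : ∃ 𝔭 𝔭' : Ideal (𝓞 L), Pr p 𝔭 𝔭' := by
    by_contra hcon
    push Not at hcon
    have hne : Ideal.span {((p : ℕ) : 𝓞 L)} ≠ ⊤ := by
      intro h
      have h2 : absNorm (Ideal.span {((p : ℕ) : 𝓞 L)}) = 1 := by rw [h]; exact Ideal.absNorm_top
      rw [Ideal.absNorm_span_natCast, RingOfIntegers.rank, hn] at h2
      have h3 : 0 < n := by rw [← hn]; exact Module.finrank_pos
      exact hp.one_lt.ne' ((Nat.pow_eq_one.1 h2).resolve_right h3.ne')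
    obtain ⟨P, hPm, hPle⟩ := Ideal.exists_le_maximal _ hne
    have hPp := hPm.isPrime
    have hpP : ((p : ℕ) : 𝓞 L) ∈ P := hPle (Ideal.mem_span_singleton_self _)
    have h2 := not_le_sq hp hpD P hpP
    obtain ⟨J, hJ⟩ := Ideal.dvd_iff_le.2 hPle
    by_cases hJt : J = ⊤
    · apply hnp
      rw [hJ, hJt, Ideal.mul_top]
      exact hPp
    · obtain ⟨Q, hQm, hQle⟩ := Ideal.exists_le_maximal _ hJt
      have hQp := hQm.isPrime
      have hpQ : ((p : ℕ) : 𝓞 L) ∈ Q := by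
        apply hQle
        have h3 : Ideal.span {((p : ℕ) : 𝓞 L)} ≤ J := by
          rw [hJ]
          exact Ideal.mul_le_right
        exact h3 (Ideal.mem_span_singleton_self _)
      have hPQ : P = Q := by
        by_contra hne'
        exact hcon P Q ⟨hp, hPp, hQp, hpP, hpQ, hne'⟩
      apply h2
      rw [hJ, pow_two]
      exact Ideal.mul_mono le_rfl (hPQ ▸ hQle)
  obtain ⟨_, a1, a2, a3, a4, a5⟩ := h1
  have hm1 := a1.isMaximal (prime_ne_bot hp a3)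
  have hm2 := a2.isMaximal (prime_ne_bot hp a4)
  have hcop : IsCoprime 𝔭 𝔭' := by
    rw [Ideal.isCoprime_iff_sup_eq]
    exact hm1.coprime_of_ne hm2 a5
  have hle : Ideal.span {((p : ℕ) : 𝓞 L)} ≤ 𝔭 * 𝔭' := by
    rw [Ideal.mul_eq_inf_of_coprime (Ideal.isCoprime_iff_sup_eq.1 hcop), le_inf_iff,
      Ideal.span_singleton_le_iff_mem, Ideal.span_singleton_le_iff_mem]
    exact ⟨a3, a4⟩
  have hdvd := Ideal.absNorm_dvd_absNorm_of_le hle
  have hpn : absNorm (Ideal.span {((p : ℕ) : 𝓞 L)}) = p ^ n := by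
    rw [Ideal.absNorm_span_natCast, RingOfIntegers.rank, hn]
  rw [hpn, map_mul] at hdvd
  obtain ⟨a, ha, ha'⟩ := (Nat.dvd_prime_pow hp).1 ((Dvd.intro _ rfl).trans hdvd)
  obtain ⟨b, hb, hb'⟩ := (Nat.dvd_prime_pow hp).1 ((Dvd.intro_left _ rfl).trans hdvd)
  rw [ha', hb', ← pow_add] at hdvd
  have hab : a + b ≤ n := (Nat.pow_dvd_pow_iff_le_right hp.one_lt).1 hdvd
  rcases le_total a b with h | h
  · refine ⟨𝔭, 𝔭', ⟨hp, a1, a2, a3, a4, a5⟩, ?_⟩
    rw [ha']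
    exact Nat.pow_le_pow_right hp.pos (by omega)
  · refine ⟨𝔭', 𝔭, ⟨hp, a2, a1, a4, a3, a5.symm⟩, ?_⟩
    rw [hb']
    exact Nat.pow_le_pow_right hp.pos (by omega)

end Pool.Agent.K1H2.RF
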