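import Pool.Agent.K1H79.RF.Stm3
import Pool.Agent.R836.PP.Prim
import Pool.Agent.K1H2.RF.Pri
import Pool.Agent.K1H2.RF.Num

/-! # The final estimate for the fields of even degree without subfields (sharp form) -/

set_option autoImplicit false

namespace Pool.Agent.K1H2.RF

open NumberField Filter Pool.Agent.TH847.LS Pool.Agent.TH847.LG Pool.Agent.K1H79

/-- the case of many primes which are not inert -/
theorem case_split {n : ℕ} (hn4 : 4 ≤ n) {C1 κ θ : ℝ}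
    (hC1 : ∀ (K : Type) [Field K] [NumberField K], Module.finrank ℚ K = n → ∃ N : ℕ,
      2 ^ n * √|(discr K : ℝ)| < N ∧
      ∑ J ∈ FI K N, (1 + Real.log ((N : ℝ) / Ideal.absNorm J)) ^ n ≤
        C1 * ((discr K).natAbs : ℝ) ^ (1 / 2 + κ))
    (L : Type) [Field L] [NumberField L] (hn : Module.finrank ℚ L = n) (hns : QR.NoSub L)
    (M : Finset ℕ) (hM : ∀ p ∈ M, p.Prime ∧ (p : ℝ) ≤ |(discr L : ℝ)| ^ θ ∧ ¬ (p : ℤ) ∣ discr L ∧
      ¬ (Ideal.span {((p : ℕ) : 𝓞 L)}).IsPrime)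
    (hm : (|(discr L : ℝ)| ^ θ) ^ (1 - κ) ≤ (M.card : ℝ))
    (hsz : (2 * 150 ^ 3) ^ (n * (n - 1)) * (|(discr L : ℝ)| ^ θ) ^ (2 * (n / 2) * 3 * (n - 1)) <
      |(discr L : ℝ)|) :
    (Nat.card {c : ClassGroup (𝓞 L) // c ^ 3 = 1} : ℝ) ≤
      C1 * |(discr L : ℝ)| ^ (1 / 2 + κ - θ * (1 - κ)) := by
  obtain ⟨N, hN, hW⟩ := hC1 L hn
  have hDL : ((discr L).natAbs : ℝ) = |(discr L : ℝ)| := by
    rw [Nat.cast_natAbs]
    push_cast
    rfl
  rw [hDL] at hW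
  obtain ⟨S, hS⟩ : ∃ S : Set ℕ, S = {p : ℕ | p.Prime ∧ ¬ (p : ℤ) ∣ discr L ∧
    ¬ (Ideal.span {((p : ℕ) : 𝓞 L)}).IsPrime} := ⟨_, rfl⟩
  have hex : ∀ p : ℕ, ∃ 𝔭 𝔭' : Ideal (𝓞 L), p ∈ S → QR.Pr p 𝔭 𝔭' ∧ Ideal.absNorm 𝔭 ≤ p ^ (n / 2) := by
    intro p
    by_cases hp : p ∈ S
    · have hp' := hp
      rw [hS] at hp'
      obtain ⟨h1, h2, h3⟩ := hp'
      obtain ⟨𝔭, 𝔭', h5⟩ := two_of_not_prime hn h1 h2 h3
      exact ⟨𝔭, 𝔭', fun _ => h5⟩
    · exact ⟨⊥, ⊥, fun h => absurd h hp⟩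
  choose g g' hg using hex
  have hcount := QR.count (by omega) hn hns (l := 3) (by norm_num) (S := S) (f := g) (f' := g')
    (fun p hp => (hg p hp).1) (h := n / 2) (fun p hp => (hg p hp).2) M (Y := |(discr L : ℝ)| ^ θ) (by
      intro p hp
      obtain ⟨h1, h2, h3, h4⟩ := hM p hp
      refine ⟨h1.squarefree, h2, fun q hq => ?_⟩
      rw [h1.primeFactors, Finset.mem_singleton] at hq
      rw [hq, hS]
      exact ⟨h1, h3, h4⟩) hsz N hN
  exact fin_split (Nat.cast_nonneg _) (QR.disc_one L) hm (hcount.trans hW)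

theorem t_FINM : K1H79.RF.S_FINM := by
  intro hINE n hne hn4 ε hε
  have hnr : (4 : ℝ) ≤ n := by exact_mod_cast hn4
  obtain ⟨κ, hκ⟩ : ∃ κ : ℝ, κ = min (ε / 3) (1 / 2) := ⟨_, rfl⟩
  have hκ0 : 0 < κ := by
    rw [hκ]
    exact lt_min (by positivity) (by norm_num)
  have hκ1 : κ ≤ 1 / 2 := by rw [hκ]; exact min_le_right _ _
  have hκε : 3 * κ ≤ ε := by
    have : κ ≤ ε / 3 := by rw [hκ]; exact min_le_left _ _
    linarith
  obtain ⟨w, hw⟩ : ∃ w : ℝ, w = 3 * n * (n - 1) := ⟨_, rfl⟩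
  have hw1 : 1 ≤ w := by rw [hw]; nlinarith
  have hw0 : 0 < w := by linarith
  obtain ⟨θ, hθ⟩ : ∃ θ : ℝ, θ = (1 - κ) / w := ⟨_, rfl⟩
  have hθ0 : 0 < θ := by
    rw [hθ]
    exact div_pos (by linarith) hw0
  obtain ⟨C0, hC0, hIN⟩ := hINE n hne hn4 κ hκ0
  obtain ⟨C1, hC10, hC1⟩ := Pool.Agent.Y159.PT.W_bound n (by omega) κ hκ0
  obtain ⟨δ, hδ, X0, hX0⟩ := Pool.Agent.R836.PP.primes_AP 3 (by norm_num) 2 (by decide)
  obtain ⟨B, hB⟩ : ∃ B : ℝ, B = (2 * 150 ^ 3) ^ (n * (n - 1)) := ⟨_, rfl⟩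
  have e1 : ∀ᶠ x : ℝ in atTop, C0 < x ^ κ := (tendsto_rpow_atTop hκ0).eventually_gt_atTop _
  have e2 : ∀ᶠ x : ℝ in atTop, B < x ^ κ := (tendsto_rpow_atTop hκ0).eventually_gt_atTop _
  have e3 := many hδ hθ0 hκ0 (by linarith : κ < 1) X0
  obtain ⟨D0, hD0⟩ := eventually_atTop.1 (e1.and (e2.and e3))
  have hexp : 1 / 2 + κ - θ * (1 - κ) ≤ 1 / 2 - 1 / (3 * n * (n - 1)) + ε := by
    have h1 := expo hw1 hκ0 hκε
    rw [← hw]
    refine le_trans (le_of_eq ?_) h1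
    rw [hθ]
    ring
  have hlarge : QR.SavE n 3 (1 / 2 + κ - θ * (1 - κ))
      (fun L _ _ => D0 ≤ |(discr L : ℝ)| ∧ QR.NoSub L) := by
    refine ⟨max C0 C1, lt_of_lt_of_le hC10 (le_max_right _ _), ?_⟩
    rintro L _ _ hn ⟨hge, hns⟩
    have hD1 := QR.disc_one L
    have hDz : (discr L).natAbs ≠ 0 := Int.natAbs_ne_zero.2 (discr_ne_zero L)
    have hDn : ((discr L).natAbs : ℝ) = |(discr L : ℝ)| := by
      rw [Nat.cast_natAbs]
      push_cast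
      rfl
    obtain ⟨g1, g2, g3, g4⟩ := hD0 _ hge
    have g5 := hX0 _ g3
    obtain ⟨As, hAs⟩ : ∃ As : Finset ℕ, As = (Finset.Icc 1 ⌊|(discr L : ℝ)| ^ θ⌋₊).filter
      (fun p => p.Prime ∧ p % 3 = 2 % 3) := ⟨_, rfl⟩
    rw [← hAs] at g5
    have hAp : ∀ p ∈ As, p.Prime ∧ (p : ℝ) ≤ |(discr L : ℝ)| ^ θ ∧ p % 3 = 2 := by
      intro p hp
      rw [hAs, Finset.mem_filter, Finset.mem_Icc] at hp
      exact ⟨hp.2.1, (Nat.le_floor_iff (by positivity)).1 hp.1.2, hp.2.2⟩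
    have hD0' : 0 < |(discr L : ℝ)| := by linarith
    have hpw : ∀ k : ℕ, (k : ℝ) ≤ w → (|(discr L : ℝ)| ^ θ) ^ k ≤ |(discr L : ℝ)| ^ (1 - κ) := by
      intro k hk
      rw [← Real.rpow_natCast, ← Real.rpow_mul hD0'.le]
      apply Real.rpow_le_rpow_of_exponent_le hD1
      calc θ * (k : ℝ) ≤ θ * w := mul_le_mul_of_nonneg_left hk hθ0.le
        _ = 1 - κ := by rw [hθ, div_mul_cancel₀ _ hw0.ne']
    have hfin : ∀ b : ℝ, 0 ≤ b → b < |(discr L : ℝ)| ^ κ → ∀ k : ℕ, (k : ℝ) ≤ w →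
        b * (|(discr L : ℝ)| ^ θ) ^ k < |(discr L : ℝ)| := by
      intro b hb0 hb k hk
      calc b * (|(discr L : ℝ)| ^ θ) ^ k ≤ b * |(discr L : ℝ)| ^ (1 - κ) :=
            mul_le_mul_of_nonneg_left (hpw k hk) hb0
        _ < |(discr L : ℝ)| ^ κ * |(discr L : ℝ)| ^ (1 - κ) := mul_lt_mul_of_pos_right hb (by positivity)
        _ = |(discr L : ℝ)| := by
          rw [← Real.rpow_add hD0']
          have : κ + (1 - κ) = 1 := by ring
          rw [this, Real.rpow_one]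
    rcases split As (fun p hp => (hAp p hp).1) hDz (fun p => (Ideal.span {((p : ℕ) : 𝓞 L)}).IsPrime)
      (z := (|(discr L : ℝ)| ^ θ) ^ (1 - κ)) (by rw [hDn]; exact g4.trans g5) with
      ⟨M, hMA, hMp, hMc⟩ | ⟨M, hMA, hMp, hMc⟩
    · have h1 := hIN L hn hns M (|(discr L : ℝ)| ^ θ)
        (fun p hp => ⟨(hAp p (hMA hp)).2.1, (hAp p (hMA hp)).1, (hAp p (hMA hp)).2.2, hMp p hp⟩)
        (hfin C0 hC0.le g1 _ (by
          have : 1 ≤ n := by omega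
          rw [hw]
          push_cast [Nat.cast_sub this]
          exact le_rfl))
      have h2 := fin_split (Nat.cast_nonneg _) hD1 hMc h1
      exact h2.trans (mul_le_mul_of_nonneg_right (le_max_left _ _) (by positivity))
    · have h1 := case_split hn4 hC1 L hn hns M
        (fun p hp => ⟨(hAp p (hMA hp)).1, (hAp p (hMA hp)).2.1, fun h => (hMp p hp).1 (Int.natCast_dvd.1 h),
          (hMp p hp).2⟩) hMc (by
          rw [← hB]
          refine hfin B (by rw [hB]; positivity) g2 _ ?_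
          have h3 : 2 * (n / 2) * 3 * (n - 1) ≤ n * 3 * (n - 1) := by
            have : 2 * (n / 2) ≤ n := Nat.mul_div_le n 2
            gcongr
          have h4 : ((2 * (n / 2) * 3 * (n - 1) : ℕ) : ℝ) ≤ ((n * 3 * (n - 1) : ℕ) : ℝ) := by
            exact_mod_cast h3
          refine h4.trans ?_
          have : 1 ≤ n := by omega
          rw [hw]
          push_cast [Nat.cast_sub this]
          exact le_of_eq (by ring))
      exact h1.trans (mul_le_mul_of_nonneg_right (le_max_right _ _) (by positivity))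
  have h1 := (hlarge.exp hexp).or (QR.SavE.small' n 3 (by omega) _ D0)
  refine h1.mono ?_
  intro L _ _ hn hL
  rcases lt_or_ge |(discr L : ℝ)| D0 with hlt | hge
  · exact Or.inr hlt
  · exact Or.inl ⟨hge, hL⟩

end Pool.Agent.K1H2.RF
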